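import Pool.Agent.Q270.CJ.Cf
import Pool.Agent.Q270.CJ.Half

/-!
# Cao's conjecture on the Jacobi symbol and the parity of the length of continued fractions

For every odd `p > 3` with `p ≡ 3 mod 4` we prove `Nbar(p) ≥ N(p) ≥ 2`.

If `n, n' < p / 2` and `n n' ≡ ± 1 mod p`, then the sign is `- (-1) ^ λ(n)`. This gives
`∑_{n < p / 2} (n / p) (-1) ^ λ(n) = - ∑_{n < p / 2} (n / p)`, and with `λ(p - n) = λ(n) + 1`
we get `Nbar(p) - N(p) = 2 ∑_{n < p / 2} (n / p)`. The last sum is not negative; for a squarefree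
modulus this is Dirichlet's class number formula (it is a positive multiple of `L(1, (· / p))`, by
the value of the Gauss sum), the general case is reduced to it.
-/

set_option autoImplicit false

open Finset

namespace Pool.Agent.Results.MP_54f1ce_nt.CaoInequality

open Pool.Agent.Q270.CJ

lemma totient_eq {p : ℕ} (hp : 1 < p) (hodd : p % 2 = 1) :
    (Nat.totient p : ℤ) = 2 * ∑ n ∈ Icc 1 (p / 2), (if p.Coprime n then (1 : ℤ) else 0) := by
  rw [Nat.totient_eq_card_coprime, card_filter]
  push_cast
  have h2 : range p = insert 0 (Icc 1 (p - 1)) := by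
    ext x
    simp only [mem_range, mem_insert, mem_Icc]
    omega
  rw [h2, sum_insert (by simp), if_neg (by rw [Nat.coprime_zero_right]; omega), zero_add,
    sum_halves hodd (fun n => if p.Coprime n then (1 : ℤ) else 0), mul_sum]
  apply sum_congr rfl
  intro n hn
  rw [mem_Icc] at hn
  have h3 : p.Coprime (p - n) ↔ p.Coprime n := Nat.coprime_self_sub_right (by omega)
  simp only [h3]
  ring

lemma N_formula {p : ℕ} (h3 : p % 4 = 3) :
    (N p : ℤ) = ∑ n ∈ Icc 1 (p / 2), ((if p.Coprime n then (1 : ℤ) else 0) - jacobiSym n p) := by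
  have h1 := N_sub p
  have h2 := N_add (p := p) (by omega)
  rw [D_eq h3] at h1
  rw [totient_eq (by omega) (by omega)] at h2
  rw [sum_sub_distrib]
  unfold S at h1
  linarith

lemma exists_nonresidue {p : ℕ} (h3 : p % 4 = 3) (hp : 3 < p) :
    ∃ n ∈ Icc 1 (p / 2), jacobiSym n p = -1 := by
  rcases jac_cases 2 p with h | h | h
  · exfalso
    have h1 := jac_sq (p := p) (n := 2) ((Nat.coprime_two_left).2 (by rw [Nat.odd_iff]; omega))
    push_cast at h1
    rw [h] at h1
    norm_num at h1
  · set j := Nat.log 2 p with hj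
    have h1 : 2 ^ j ≤ p := Nat.pow_log_le_self 2 (by omega)
    have h2 : p < 2 ^ (j + 1) := Nat.lt_pow_succ_log_self (by norm_num) p
    have hj0 : j ≠ 0 := by
      intro h0
      rw [h0] at h2
      omega
    have h4 : 2 ^ j ≠ p := by
      intro h5
      have h6 : 2 ∣ 2 ^ j := dvd_pow_self 2 hj0
      rw [h5] at h6
      omega
    rw [pow_succ] at h2
    refine ⟨p - 2 ^ j, ?_, ?_⟩
    · rw [mem_Icc]
      omega
    · rw [jac_reflect h1, jac_neg_one_of_three h3]
      push_cast
      rw [jacobiSym.pow_left, h]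
      norm_num
  · refine ⟨2, ?_, ?_⟩
    · rw [mem_Icc]
      omega
    · exact_mod_cast h

/-- `Nbar(p) ≥ N(p) ≥ 2` for every odd `p > 3` with `p ≡ 3 mod 4`. -/
theorem result (p : ℕ) (hp : 3 < p) (h3 : p % 4 = 3) : N p ≤ Nbar p ∧ 2 ≤ N p := by
  constructor
  · have h1 := N_sub p
    rw [D_eq h3] at h1
    have h2 := S_nonneg h3
    have h4 : (N p : ℤ) ≤ Nbar p := by linarith
    exact_mod_cast h4
  · obtain ⟨n₀, hn₀, hJ⟩ := exists_nonresidue h3 hp
    have h1 := N_formula h3
    have hterm : ∀ n ∈ Icc 1 (p / 2),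
        0 ≤ (if p.Coprime n then (1 : ℤ) else 0) - jacobiSym n p := by
      intro n _
      split_ifs with h
      · rcases jac_cases n p with h2 | h2 | h2 <;> rw [h2] <;> norm_num
      · have : NeZero p := ⟨by omega⟩
        have h0 : jacobiSym n p = 0 := by
          rw [jacobiSym.eq_zero_iff_not_coprime, Int.gcd_natCast_natCast]
          exact fun h2 => h (Nat.coprime_comm.1 h2)
        rw [h0]
        norm_num
    have h2 := single_le_sum hterm hn₀
    rw [← h1, hJ] at h2
    have hc : p.Coprime n₀ := by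
      by_contra h
      have : NeZero p := ⟨by omega⟩
      have h0 : jacobiSym n₀ p = 0 := by
        rw [jacobiSym.eq_zero_iff_not_coprime, Int.gcd_natCast_natCast]
        exact fun h2 => h (Nat.coprime_comm.1 h2)
      rw [h0] at hJ
      norm_num at hJ
    rw [if_pos hc] at h2
    have h5 : (2 : ℤ) ≤ N p := by linarith
    exact_mod_cast h5

end Pool.Agent.Results.MP_54f1ce_nt.CaoInequality
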